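import Mathlib

set_option autoImplicit false

/-!
# Good edge-labelings and treewidth: definitions
-/

namespace Pool.Agent.Helper24.GoodLabeling

/-- A walk is increasing under `lam` if the labels of its edges, read in order, are non-decreasing. -/
def Increasing {V : Type} {G : SimpleGraph V} (lam : Sym2 V → ℝ) {x y : V} (p : G.Walk x y) : Prop :=
  (p.edges.map lam).Pairwise (· ≤ ·)

/-- `lam` is a good edge-labeling of `G`: for every ordered pair `(x, y)` of vertices there are
never two distinct increasing paths from `x` to `y`. -/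
def IsGoodLabeling {V : Type} (G : SimpleGraph V) (lam : Sym2 V → ℝ) : Prop :=
  ∀ (x y : V) (p q : G.Walk x y), p.IsPath → q.IsPath →
    Increasing lam p → Increasing lam q → p = q

/-- `G` is good if it has a good edge-labeling. -/
def IsGood {V : Type} (G : SimpleGraph V) : Prop :=
  ∃ lam : Sym2 V → ℝ, IsGoodLabeling G lam

/-- `G` is `c`-good if it has a good edge-labeling taking at most `c` distinct values on the edges. -/
def IsCGood {V : Type} (G : SimpleGraph V) (c : ℕ) : Prop :=
  ∃ lam : Sym2 V → ℝ, IsGoodLabeling G lam ∧ (lam '' G.edgeSet).encard ≤ (c : ℕ∞)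

/-- `G` has a tree decomposition (tree `T`, bags `bag t`) all of whose bags have at most
`k + 1` vertices. -/
def HasTreeDecomposition {V : Type} (G : SimpleGraph V) (k : ℕ) : Prop :=
  ∃ (ι : Type) (_ : Finite ι) (T : SimpleGraph ι) (bag : ι → Finset V), T.IsTree ∧
    (∀ x : V, ∃ t, x ∈ bag t) ∧
    (∀ x y : V, G.Adj x y → ∃ t, x ∈ bag t ∧ y ∈ bag t) ∧
    (∀ x : V, (T.induce {t | x ∈ bag t}).Connected) ∧
    (∀ t, (bag t).card ≤ k + 1)

/-- The treewidth: the least width of a tree decomposition. -/
noncomputable def treewidth {V : Type} (G : SimpleGraph V) : ℕ :=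
  sInf {k | HasTreeDecomposition G k}

end Pool.Agent.Helper24.GoodLabeling
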