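import Pool.Agent.Helper24.GoodLabeling.Defs

set_option autoImplicit false

/-!
# Good edge-labelings: the number of labels is not bounded by the treewidth

The family: an apex `v`, a path `u 0, u 1, …, u (m-1)` and vertices `w 0, …, w (m-1)`, where `v` is
adjacent to every `w j` and `w i` is adjacent to `u j` exactly when `|i - j| = 1`.  It has treewidth
at most three, it is good (explicit labeling, checked by a certificate), and in every good labeling
the labels of `v (w 0), v (w 2), v (w 4), …` are strictly monotone.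
-/

namespace Pool.Agent.Helper24.GoodLabeling

open SimpleGraph

/-! ### Certificates for good labelings -/

section Cert

variable {V : Type} {G : SimpleGraph V} {lam : Sym2 V → ℝ}

theorem mem_of_increasing (T : V → V → V → Prop)
    (h1 : ∀ x u, G.Adj x u → T x u u)
    (h2 : ∀ x u w, G.Adj x u → G.Adj u w → x ≠ w → lam s(x, u) ≤ lam s(u, w) →
      ∀ y, T u w y → T x u y) :
    ∀ {x y u : V} (h : G.Adj x u) (p : G.Walk u y), (Walk.cons h p).IsPath →
      Increasing lam (Walk.cons h p) → T x u y := by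
  intro x y u h p
  induction p generalizing x with
  | nil => intro _ _; exact h1 _ _ h
  | cons h' p' ih =>
    rename_i a b c
    intro hp hinc
    have hinc' : Increasing lam (Walk.cons h' p') := by
      unfold Increasing at hinc ⊢
      simp only [Walk.edges_cons, List.map_cons, List.pairwise_cons] at hinc ⊢
      exact hinc.2
    have hle : lam s(x, a) ≤ lam s(a, b) := by
      unfold Increasing at hinc
      simp only [Walk.edges_cons, List.map_cons, List.pairwise_cons] at hinc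
      exact hinc.1 _ (by simp)
    have hne : x ≠ b := by
      rintro rfl
      have := (Walk.cons_isPath_iff _ _).1 hp
      exact this.2 (by simp)
    exact h2 x a b h h' hne hle _ (ih h' ((Walk.cons_isPath_iff _ _).1 hp).1 hinc')

theorem good_of_cert (T : V → V → V → Prop)
    (h1 : ∀ x u, G.Adj x u → T x u u)
    (h2 : ∀ x u w, G.Adj x u → G.Adj u w → x ≠ w → lam s(x, u) ≤ lam s(u, w) →
      ∀ y, T u w y → T x u y)
    (h3 : ∀ x u u', G.Adj x u → G.Adj x u' → ∀ y, T x u y → T x u' y → u = u') :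
    IsGoodLabeling G lam := by
  intro x y p
  induction p with
  | nil =>
    intro q _ hq _ _
    cases q with
    | nil => rfl
    | cons h q' =>
      exfalso
      have := (Walk.cons_isPath_iff _ _).1 hq
      exact this.2 (by simp)
  | cons h p' ih =>
    rename_i a b c
    intro q hp hq hpi hqi
    cases q with
    | nil =>
      exfalso
      have := (Walk.cons_isPath_iff _ _).1 hp
      exact this.2 (by simp)
    | cons h' q' =>
      rename_i d
      have e1 := mem_of_increasing T h1 h2 h p' hp hpi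
      have e2 := mem_of_increasing T h1 h2 h' q' hq hqi
      have hbd : b = d := h3 _ _ _ h h' _ e1 e2
      subst hbd
      have hpi' : Increasing lam p' := by
        unfold Increasing at hpi ⊢
        simp only [Walk.edges_cons, List.map_cons, List.pairwise_cons] at hpi
        exact hpi.2
      have hqi' : Increasing lam q' := by
        unfold Increasing at hqi ⊢
        simp only [Walk.edges_cons, List.map_cons, List.pairwise_cons] at hqi
        exact hqi.2
      rw [ih q' ((Walk.cons_isPath_iff _ _).1 hp).1 ((Walk.cons_isPath_iff _ _).1 hq).1 hpi' hqi']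

end Cert

/-! ### The family of graphs -/

/-- Vertices of the `m`-th graph: an apex `v`, a path `u 0, u 1, …` and vertices `w 0, w 1, …`. -/
inductive Vx (m : ℕ) : Type
  | v : Vx m
  | u (j : Fin m) : Vx m
  | w (j : Fin m) : Vx m
  deriving DecidableEq, Fintype

namespace Vx

/-- Adjacency: `v ~ w j`; `u i ~ u j` and `w i ~ u j` when `|i - j| = 1`. -/
def adj {m : ℕ} : Vx m → Vx m → Prop
  | v, w _ => True
  | w _, v => True
  | u i, u j => i.1 + 1 = j.1 ∨ j.1 + 1 = i.1
  | w i, u j => i.1 + 1 = j.1 ∨ j.1 + 1 = i.1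
  | u i, w j => i.1 + 1 = j.1 ∨ j.1 + 1 = i.1
  | _, _ => False

/-- The `m`-th graph. -/
def graph (m : ℕ) : SimpleGraph (Vx m) where
  Adj := adj
  symm := by
    constructor
    intro x y h
    cases x <;> cases y <;> simp only [adj] at h ⊢ <;> first | trivial | omega
  loopless := by
    constructor
    intro x h
    cases x <;> simp only [adj] at h <;> omega

theorem graph_adj {m : ℕ} (x y : Vx m) : (graph m).Adj x y ↔ adj x y := Iff.rfl

/-- Labels. -/
def lab {m : ℕ} : Vx m → Vx m → ℕ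
  | v, w j => j.1 + 1
  | w j, v => j.1 + 1
  | u i, u j => m + 1 + 2 * (m - max i.1 j.1)
  | w i, u j => if i.1 = j.1 + 1 then 0 else m + 2 + 2 * (m - j.1)
  | u j, w i => if i.1 = j.1 + 1 then 0 else m + 2 + 2 * (m - j.1)
  | _, _ => 0

theorem lab_symm {m : ℕ} (x y : Vx m) : lab x y = lab y x := by
  cases x <;> cases y <;> simp only [lab] <;> simp [max_comm]

/-- The labeling. -/
noncomputable def lam (m : ℕ) : Sym2 (Vx m) → ℝ :=
  fun e => ((Sym2.lift ⟨lab, lab_symm⟩ e : ℕ) : ℝ)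

theorem lam_mk {m : ℕ} (x y : Vx m) : lam m s(x, y) = (lab x y : ℝ) := rfl

/-- Certificate: which vertices can be reached by increasing paths with a given first edge. -/
def T {m : ℕ} (x z y : Vx m) : Prop :=
  match x, z, y with
  | v, w j, w i => i.1 = j.1
  | v, w j, u i => i.1 = j.1 + 1
  | w _, v, v => True
  | w j, v, w i => j.1 + 1 ≤ i.1
  | w j, v, u i => j.1 + 2 ≤ i.1
  | w _, u _, v => False
  | w j, u k, w i => j.1 = k.1 + 1 ∧ i.1 ≤ k.1
  | w j, u k, u i => (k.1 = j.1 + 1 ∧ i.1 = k.1) ∨ (j.1 = k.1 + 1 ∧ i.1 ≤ k.1 + 1)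
  | u k, w j, v => j.1 = k.1 + 1
  | u k, w j, w i => (j.1 = k.1 + 1 ∧ k.1 + 1 ≤ i.1) ∨ (k.1 = j.1 + 1 ∧ i.1 = j.1)
  | u k, w j, u i => j.1 = k.1 + 1 ∧ k.1 + 2 ≤ i.1
  | u k, u l, w i => (l.1 = k.1 + 1 ∧ i.1 = k.1) ∨ (k.1 = l.1 + 1 ∧ i.1 + 2 ≤ k.1)
  | u k, u l, u i => (l.1 = k.1 + 1 ∧ i.1 = l.1) ∨ (k.1 = l.1 + 1 ∧ i.1 + 1 ≤ k.1)
  | _, _, _ => False

theorem graph_good (m : ℕ) : IsGoodLabeling (graph m) (lam m) := by
  apply good_of_cert T
  · intro x z h
    have h' : adj x z := h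
    rcases x with _ | ⟨⟨x, hx⟩⟩ | ⟨⟨x, hx⟩⟩ <;> rcases z with _ | ⟨⟨z, hz⟩⟩ | ⟨⟨z, hz⟩⟩ <;>
      simp only [adj, T, and_true] at h' ⊢ <;> first | trivial | omega
  · intro x z t h h' hne hle y hy
    have h1 : adj x z := h
    have h2 : adj z t := h'
    rw [lam_mk, lam_mk, Nat.cast_le] at hle
    clear h h'
    rcases x with _ | ⟨⟨x, hx⟩⟩ | ⟨⟨x, hx⟩⟩ <;> rcases z with _ | ⟨⟨z, hz⟩⟩ | ⟨⟨z, hz⟩⟩ <;>
      rcases t with _ | ⟨⟨t, ht⟩⟩ | ⟨⟨t, ht⟩⟩ <;> rcases y with _ | ⟨⟨y, hy0⟩⟩ | ⟨⟨y, hy0⟩⟩ <;>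
      simp only [adj, T, lab, ne_eq, u.injEq, w.injEq, Fin.mk.injEq] at h1 h2 hy hle hne ⊢ <;>
      first | trivial | omega | (split_ifs at hle <;> omega)
  · intro x z z' h h' y hy hy'
    have h1 : adj x z := h
    have h2 : adj x z' := h'
    clear h h'
    rcases x with _ | ⟨⟨x, hx⟩⟩ | ⟨⟨x, hx⟩⟩ <;> rcases z with _ | ⟨⟨z, hz⟩⟩ | ⟨⟨z, hz⟩⟩ <;>
      rcases z' with _ | ⟨⟨t, ht⟩⟩ | ⟨⟨t, ht⟩⟩ <;> rcases y with _ | ⟨⟨y, hy0⟩⟩ | ⟨⟨y, hy0⟩⟩ <;>
      simp only [adj, T, u.injEq, w.injEq, Fin.mk.injEq] at h1 h2 hy hy' ⊢ <;>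
      first | trivial | omega


/-! ### A tree decomposition of width three -/

/-- Membership in the bag with index `t`. -/
def inBag {m : ℕ} (t : ℕ) : Vx m → Prop
  | v => True
  | u j => 2 * j.1 ≤ t + 1 ∧ t ≤ 2 * j.1 + 2
  | w j => 2 * j.1 ≤ t ∧ t ≤ 2 * j.1 + 1

open Classical in
/-- The bag with index `t`. -/
noncomputable def bag (m t : ℕ) : Finset (Vx m) := Finset.univ.filter (inBag t)

theorem mem_bag {m t : ℕ} (x : Vx m) : x ∈ bag m t ↔ inBag t x := by
  simp [bag]

/-- Auxiliary colouring, injective on bags. -/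
def col {m : ℕ} : Vx m → ℕ
  | v => 0
  | w _ => 1
  | u j => 2 + j.1 % 2

theorem card_bag_le (m t : ℕ) : (bag m t).card ≤ 4 := by
  have : (bag m t).card ≤ (Finset.range 4).card := by
    apply Finset.card_le_card_of_injOn col
    · intro x _
      rcases x with _ | ⟨⟨x, hx⟩⟩ | ⟨⟨x, hx⟩⟩ <;> simp [col]
      omega
    · intro x hx y hy hxy
      rw [Finset.mem_coe, mem_bag] at hx hy
      rcases x with _ | ⟨⟨x, hx'⟩⟩ | ⟨⟨x, hx'⟩⟩ <;> rcases y with _ | ⟨⟨y, hy'⟩⟩ | ⟨⟨y, hy'⟩⟩ <;>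
        simp only [inBag, col, u.injEq, w.injEq, Fin.mk.injEq] at hx hy hxy ⊢ <;> first | rfl | omega
  simpa using this

end Vx

section PathTree

theorem pathGraph_isTree (n : ℕ) : (pathGraph (n + 1)).IsTree := by
  classical
  rw [isTree_iff_connected_and_card]
  refine ⟨pathGraph_connected n, le_antisymm ?_ (pathGraph_connected n).card_vert_le_card_edgeSet_add_one⟩
  have hsub : (pathGraph (n + 1)).edgeSet ⊆
      ((Finset.univ.image (fun i : Fin n => s(i.castSucc, i.succ)) : Finset (Sym2 (Fin (n + 1)))) :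
        Set (Sym2 (Fin (n + 1)))) := by
    intro e
    refine Sym2.ind (fun a b => ?_) e
    intro hab
    rw [mem_edgeSet, pathGraph_adj] at hab
    simp only [Finset.coe_image, Finset.coe_univ, Set.image_univ, Set.mem_range]
    rcases hab with h | h
    · refine ⟨⟨a.1, by omega⟩, ?_⟩
      have h1 : (Fin.castSucc ⟨a.1, by omega⟩ : Fin (n + 1)) = a := by ext; simp
      have h2 : (Fin.succ ⟨a.1, by omega⟩ : Fin (n + 1)) = b := by ext; simp; omega
      rw [h1, h2]
    · refine ⟨⟨b.1, by omega⟩, ?_⟩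
      have h1 : (Fin.castSucc ⟨b.1, by omega⟩ : Fin (n + 1)) = b := by ext; simp
      have h2 : (Fin.succ ⟨b.1, by omega⟩ : Fin (n + 1)) = a := by ext; simp; omega
      rw [h1, h2, Sym2.eq_swap]
  have h1 : Nat.card (pathGraph (n + 1)).edgeSet ≤ n := by
    rw [Nat.card_coe_set_eq]
    refine (Set.ncard_le_ncard hsub (Finset.finite_toSet _)).trans ?_
    rw [Set.ncard_coe_finset]
    refine Finset.card_image_le.trans ?_
    simp
  simpa using h1

theorem induce_pathGraph_connected (n : ℕ) (S : Set (Fin (n + 1))) (hne : S.Nonempty)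
    (hS : ∀ a b c : Fin (n + 1), a ∈ S → c ∈ S → a ≤ b → b ≤ c → b ∈ S) :
    ((pathGraph (n + 1)).induce S).Connected := by
  have key : ∀ (k : ℕ) (a b : Fin (n + 1)) (ha : a ∈ S) (hb : b ∈ S), a.1 + k = b.1 →
      ((pathGraph (n + 1)).induce S).Reachable ⟨a, ha⟩ ⟨b, hb⟩ := by
    intro k
    induction k with
    | zero =>
      intro a b ha hb h
      have : a = b := by ext; omega
      subst this
      rfl
    | succ k ih =>
      intro a b ha hb h
      have hb' : b.1 - 1 < n + 1 := by omega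
      have hc : (⟨b.1 - 1, hb'⟩ : Fin (n + 1)) ∈ S := by
        refine hS a _ b ha hb ?_ ?_
        · rw [Fin.le_def]; simp; omega
        · rw [Fin.le_def]; simp
      refine (ih a ⟨b.1 - 1, hb'⟩ ha hc (by simp; omega)).trans ?_
      apply Adj.reachable
      simp only [comap_adj, Function.Embedding.subtype_apply, pathGraph_adj]
      left
      omega
  have : Nonempty S := hne.to_subtype
  refine ⟨?_⟩
  rintro ⟨a, ha⟩ ⟨b, hb⟩
  rcases le_total a.1 b.1 with h | h
  · exact key (b.1 - a.1) a b ha hb (by omega)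
  · exact (key (a.1 - b.1) b a hb ha (by omega)).symm

end PathTree

namespace Vx

theorem hasTreeDecomposition (m : ℕ) : HasTreeDecomposition (graph m) 3 := by
  refine ⟨Fin (2 * m + 1), inferInstance, pathGraph (2 * m + 1), fun t => bag m t.1,
    pathGraph_isTree _, ?_, ?_, ?_, fun t => card_bag_le m t.1⟩
  · intro x
    simp only [mem_bag]
    rcases x with _ | ⟨⟨x, hx⟩⟩ | ⟨⟨x, hx⟩⟩
    · exact ⟨0, by simp [inBag]⟩
    · exact ⟨⟨2 * x, by omega⟩, by simp only [inBag]; omega⟩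
    · exact ⟨⟨2 * x, by omega⟩, by simp only [inBag]; omega⟩
  · intro x y h
    have h' : adj x y := h
    simp only [mem_bag]
    rcases x with _ | ⟨⟨x, hx⟩⟩ | ⟨⟨x, hx⟩⟩ <;> rcases y with _ | ⟨⟨y, hy⟩⟩ | ⟨⟨y, hy⟩⟩ <;>
      simp only [adj] at h'
    · exact ⟨⟨2 * y, by omega⟩, by simp only [inBag], by simp only [inBag]; omega⟩
    · exact ⟨⟨2 * min x y + 1, by omega⟩, by simp only [inBag]; omega, by simp only [inBag]; omega⟩
    · rcases h' with h' | h'
      · exact ⟨⟨2 * y, by omega⟩, by simp only [inBag]; omega, by simp only [inBag]; omega⟩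
      · exact ⟨⟨2 * y + 1, by omega⟩, by simp only [inBag]; omega, by simp only [inBag]; omega⟩
    · exact ⟨⟨2 * x, by omega⟩, by simp only [inBag]; omega, by simp only [inBag]⟩
    · rcases h' with h' | h'
      · exact ⟨⟨2 * x + 1, by omega⟩, by simp only [inBag]; omega, by simp only [inBag]; omega⟩
      · exact ⟨⟨2 * x, by omega⟩, by simp only [inBag]; omega, by simp only [inBag]; omega⟩
  · intro x
    apply induce_pathGraph_connected
    · rcases x with _ | ⟨⟨x, hx⟩⟩ | ⟨⟨x, hx⟩⟩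
      · exact ⟨0, by simp only [Set.mem_ofPred_eq, mem_bag, inBag]⟩
      · exact ⟨⟨2 * x, by omega⟩, by simp only [Set.mem_ofPred_eq, mem_bag, inBag]; omega⟩
      · exact ⟨⟨2 * x, by omega⟩, by simp only [Set.mem_ofPred_eq, mem_bag, inBag]; omega⟩
    · intro a b c ha hc hab hbc
      rw [Fin.le_def] at hab hbc
      simp only [Set.mem_ofPred_eq, mem_bag] at ha hc ⊢
      rcases x with _ | ⟨⟨x, hx⟩⟩ | ⟨⟨x, hx⟩⟩ <;>
        simp only [inBag] at ha hc ⊢ <;>
        omega

theorem treewidth_graph_le (m : ℕ) : treewidth (graph m) ≤ 3 :=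
  Nat.sInf_le (hasTreeDecomposition m)

end Vx

/-! ### Forced inequalities in good labelings -/

section Forced

variable {V : Type} {G : SimpleGraph V} {lam : Sym2 V → ℝ}

/-- Two paths of length two with the same ends are not both increasing. -/
theorem no22 (hg : IsGoodLabeling G lam) {a b c d : V} (hab : G.Adj a b) (hbc : G.Adj b c)
    (had : G.Adj a d) (hdc : G.Adj d c) (hac : a ≠ c) (hbd : b ≠ d)
    (h1 : lam s(a, b) ≤ lam s(b, c)) (h2 : lam s(a, d) ≤ lam s(d, c)) : False := by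
  have h := hg a c (Walk.cons hab (Walk.cons hbc Walk.nil)) (Walk.cons had (Walk.cons hdc Walk.nil))
    (by simp [hab.ne, hbc.ne, hac]) (by simp [had.ne, hdc.ne, hac])
    (by simp [Increasing, h1]) (by simp [Increasing, h2])
  simp only [Walk.cons.injEq] at h
  exact hbd h.1

/-- An edge excludes an increasing path of length three between its ends. -/
theorem no13 (hg : IsGoodLabeling G lam) {a b c d : V} (hab : G.Adj a b)
    (had : G.Adj a d) (hdc : G.Adj d c) (hcb : G.Adj c b) (hac : a ≠ c) (hbd : b ≠ d)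
    (h1 : lam s(a, d) ≤ lam s(d, c)) (h2 : lam s(d, c) ≤ lam s(c, b)) : False := by
  have h := hg a b (Walk.cons hab Walk.nil) (Walk.cons had (Walk.cons hdc (Walk.cons hcb Walk.nil)))
    (by simp [hab.ne]) (by simp [had.ne, hdc.ne, hcb.ne, hab.ne, hac, hbd.symm])
    (by simp [Increasing]) (by simp [Increasing, h1, h2, h1.trans h2])
  simp only [Walk.cons.injEq] at h
  exact hbd h.1

/-- A path of length two and one of length three with the same ends are not both increasing. -/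
theorem no23 (hg : IsGoodLabeling G lam) {a c x p q : V} (hax : G.Adj a x) (hxc : G.Adj x c)
    (hap : G.Adj a p) (hpq : G.Adj p q) (hqc : G.Adj q c) (hac : a ≠ c) (hxp : x ≠ p)
    (haq : a ≠ q) (hpc : p ≠ c)
    (h0 : lam s(a, x) ≤ lam s(x, c))
    (h1 : lam s(a, p) ≤ lam s(p, q)) (h2 : lam s(p, q) ≤ lam s(q, c)) : False := by
  have h := hg a c (Walk.cons hax (Walk.cons hxc Walk.nil))
    (Walk.cons hap (Walk.cons hpq (Walk.cons hqc Walk.nil)))
    (by simp [hax.ne, hxc.ne, hac]) (by simp [hap.ne, hpq.ne, hqc.ne, hac, haq, hpc])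
    (by simp [Increasing, h0]) (by simp [Increasing, h1, h2, h1.trans h2])
  simp only [Walk.cons.injEq] at h
  exact hxp h.1

/-- On a 4-cycle one pair of opposite edges lies strictly above the other pair. -/
theorem c4_alt (hg : IsGoodLabeling G lam) {a b c d : V} (hab : G.Adj a b) (hbc : G.Adj b c)
    (hcd : G.Adj c d) (hda : G.Adj d a) (hac : a ≠ c) (hbd : b ≠ d) :
    (lam s(a, b) < lam s(b, c) ∧ lam s(a, b) < lam s(d, a) ∧
      lam s(c, d) < lam s(b, c) ∧ lam s(c, d) < lam s(d, a)) ∨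
    (lam s(b, c) < lam s(a, b) ∧ lam s(d, a) < lam s(a, b) ∧
      lam s(b, c) < lam s(c, d) ∧ lam s(d, a) < lam s(c, d)) := by
  have e1 := @no22 _ _ _ hg a b c d hab hbc hda.symm hcd.symm hac hbd
  have e2 := @no22 _ _ _ hg c b a d hbc.symm hab.symm hcd hda hac.symm hbd
  have f1 := @no13 _ _ _ hg a b c d hab hda.symm hcd.symm hbc.symm hac hbd
  have f2 := @no13 _ _ _ hg b a d c hab.symm hbc hcd hda hbd hac
  have f3 := @no13 _ _ _ hg b c d a hbc hab.symm hda.symm hcd.symm hbd hac.symm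
  have f4 := @no13 _ _ _ hg c b a d hbc.symm hcd hda hab hac.symm hbd
  have f5 := @no13 _ _ _ hg c d a b hcd hbc.symm hab.symm hda.symm hac.symm hbd.symm
  have f6 := @no13 _ _ _ hg d c b a hcd.symm hda hab hbc hbd.symm hac.symm
  have f7 := @no13 _ _ _ hg d a b c hda hcd.symm hbc.symm hab.symm hbd.symm hac
  have f8 := @no13 _ _ _ hg a d c b hda.symm hab hbc hcd hac hbd.symm
  rw [Sym2.eq_swap (a := a) (b := d), Sym2.eq_swap (a := d) (b := c)] at e1 f1
  rw [Sym2.eq_swap (a := c) (b := b), Sym2.eq_swap (a := b) (b := a)] at e2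
  rw [Sym2.eq_swap (a := c) (b := b)] at f1
  rw [Sym2.eq_swap (a := b) (b := a), Sym2.eq_swap (a := a) (b := d), Sym2.eq_swap (a := d) (b := c)] at f3
  rw [Sym2.eq_swap (a := c) (b := b), Sym2.eq_swap (a := b) (b := a), Sym2.eq_swap (a := a) (b := d)] at f5
  rw [Sym2.eq_swap (a := d) (b := c), Sym2.eq_swap (a := c) (b := b), Sym2.eq_swap (a := b) (b := a)] at f7
  generalize lam s(a, b) = α at *
  generalize lam s(b, c) = β at *
  generalize lam s(c, d) = γ at *
  generalize lam s(d, a) = δ at *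
  rcases le_or_gt α β with hαβ | hαβ
  · left
    have g1 : γ < δ := by
      by_contra hcon
      exact e1 hαβ (not_lt.1 hcon)
    have g2 : γ < β := by
      by_contra hcon
      exact f8 hαβ (not_lt.1 hcon)
    have g3 : α < δ := by
      by_contra hcon
      exact f6 (not_lt.1 hcon) hαβ
    have g4 : α < β := by
      by_contra hcon
      exact e2 (not_lt.1 hcon) g1.le
    exact ⟨g4, g3, g2, g1⟩
  · right
    have g1 : δ < γ := by
      by_contra hcon
      exact e2 hαβ.le (not_lt.1 hcon)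
    have g2 : β < γ := by
      by_contra hcon
      exact f7 (not_lt.1 hcon) hαβ.le
    have g3 : δ < α := by
      by_contra hcon
      exact f5 hαβ.le (not_lt.1 hcon)
    exact ⟨hαβ, g3, g2, g1⟩

/-- The gadget: the edge `v w2` lies strictly between `v w0` and `v w4` in every good labeling. -/
theorem between (hg : IsGoodLabeling G lam) {v w0 w2 w4 u1 u3 c x y : V}
    (hv0 : G.Adj v w0) (hv2 : G.Adj v w2) (hv4 : G.Adj v w4) (hvx : G.Adj v x) (hvy : G.Adj v y)
    (h01 : G.Adj w0 u1) (h12 : G.Adj u1 w2) (h23 : G.Adj w2 u3) (h34 : G.Adj u3 w4)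
    (h1c : G.Adj u1 c) (hc3 : G.Adj c u3) (hcx : G.Adj c x) (hcy : G.Adj c y)
    (hvu1 : v ≠ u1) (hvu3 : v ≠ u3) (hvc : v ≠ c) (h02 : w0 ≠ w2) (h24 : w2 ≠ w4)
    (hu13 : u1 ≠ u3) (hw2c : w2 ≠ c) (hxy : x ≠ y) (hxw2 : x ≠ w2) (hyw2 : y ≠ w2)
    (hxu1 : x ≠ u1) (hxu3 : x ≠ u3) (hyu1 : y ≠ u1) (hyu3 : y ≠ u3) :
    (lam s(v, w0) < lam s(v, w2) ∧ lam s(v, w2) < lam s(v, w4)) ∨
    (lam s(v, w2) < lam s(v, w0) ∧ lam s(v, w4) < lam s(v, w2)) := by
  have D1 := c4_alt hg hv0 h01 h12 hv2.symm hvu1 h02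
  have D2 := c4_alt hg hv2 h23 h34 hv4.symm hvu3 h24
  have D3 := c4_alt hg h12.symm h1c hc3 h23.symm hw2c hu13
  have D4 := c4_alt hg hvx hcx.symm hcy hvy.symm hvc hxy
  have F1 := @no23 _ _ _ hg v c x w2 u1 hvx hcx.symm hv2 h12.symm h1c hvc hxw2 hvu1 hw2c
  have F2 := @no23 _ _ _ hg v c y w2 u1 hvy hcy.symm hv2 h12.symm h1c hvc hyw2 hvu1 hw2c
  have F3 := @no23 _ _ _ hg v c x w2 u3 hvx hcx.symm hv2 h23 hc3.symm hvc hxw2 hvu3 hw2c
  have F4 := @no23 _ _ _ hg v c y w2 u3 hvy hcy.symm hv2 h23 hc3.symm hvc hyw2 hvu3 hw2c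
  have R1 := @no23 _ _ _ hg c v x u1 w2 hcx hvx.symm h1c.symm h12 hv2.symm hvc.symm hxu1 hw2c.symm hvu1.symm
  have R2 := @no23 _ _ _ hg c v y u1 w2 hcy hvy.symm h1c.symm h12 hv2.symm hvc.symm hyu1 hw2c.symm hvu1.symm
  have R3 := @no23 _ _ _ hg c v x u3 w2 hcx hvx.symm hc3 h23.symm hv2.symm hvc.symm hxu3 hw2c.symm hvu3.symm
  have R4 := @no23 _ _ _ hg c v y u3 w2 hcy hvy.symm hc3 h23.symm hv2.symm hvc.symm hyu3 hw2c.symm hvu3.symm
  simp only [Sym2.eq_swap (a := w2) (b := v), Sym2.eq_swap (a := w2) (b := u1),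
    Sym2.eq_swap (a := u3) (b := w2), Sym2.eq_swap (a := w4) (b := v), Sym2.eq_swap (a := y) (b := v),
    Sym2.eq_swap (a := x) (b := v), Sym2.eq_swap (a := x) (b := c), Sym2.eq_swap (a := y) (b := c),
    Sym2.eq_swap (a := c) (b := u1), Sym2.eq_swap (a := u3) (b := c)] at D1 D2 D3 D4 F1 F2 F3 F4 R1 R2 R3 R4
  generalize lam s(v, w0) = a0 at *
  generalize lam s(v, w2) = a2 at *
  generalize lam s(v, w4) = a4 at *
  generalize lam s(w0, u1) = b01 at *
  generalize lam s(u1, w2) = b12 at *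
  generalize lam s(w2, u3) = b23 at *
  generalize lam s(u3, w4) = b34 at *
  generalize lam s(u1, c) = c1 at *
  generalize lam s(c, u3) = c3 at *
  generalize lam s(v, x) = vx at *
  generalize lam s(v, y) = vy at *
  generalize lam s(c, x) = cx at *
  generalize lam s(c, y) = cy at *
  rcases D1 with ⟨p1, p2, p3, p4⟩ | ⟨p1, p2, p3, p4⟩
  · -- a0 < a2, b12 < a2
    rcases D2 with ⟨q1, q2, q3, q4⟩ | ⟨q1, q2, q3, q4⟩
    · exact Or.inl ⟨p2, q2⟩
    · exfalso
      rcases D3 with ⟨r1, r2, r3, r4⟩ | ⟨r1, r2, r3, r4⟩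
      · rcases D4 with ⟨t1, t2, t3, t4⟩ | ⟨t1, t2, t3, t4⟩
        · exact R4 t4.le r4.le q1.le
        · exact R3 t1.le r4.le q1.le
      · rcases D4 with ⟨t1, t2, t3, t4⟩ | ⟨t1, t2, t3, t4⟩
        · exact R2 t4.le r1.le p4.le
        · exact R1 t1.le r1.le p4.le
  · rcases D2 with ⟨q1, q2, q3, q4⟩ | ⟨q1, q2, q3, q4⟩
    · exfalso
      rcases D3 with ⟨r1, r2, r3, r4⟩ | ⟨r1, r2, r3, r4⟩
      · rcases D4 with ⟨t1, t2, t3, t4⟩ | ⟨t1, t2, t3, t4⟩
        · exact F1 t1.le p4.le r1.le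
        · exact F2 t4.le p4.le r1.le
      · rcases D4 with ⟨t1, t2, t3, t4⟩ | ⟨t1, t2, t3, t4⟩
        · exact F3 t1.le q1.le r4.le
        · exact F4 t4.le q1.le r4.le
    · exact Or.inr ⟨p2, q2⟩

end Forced

/-! ### Counting labels -/

namespace Vx

/-- In the graph with parameter `2 * k + 1`, the edges `v w_0, v w_2, …, v w_{2k}` get pairwise
distinct labels in every good labeling. -/
theorem betw (k i : ℕ) (hi : i + 2 ≤ k) {l : Sym2 (Vx (2 * k + 1)) → ℝ}
    (hg : IsGoodLabeling (graph (2 * k + 1)) l) :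
    (l s(v, w ⟨2 * i, by omega⟩) < l s(v, w ⟨2 * (i + 1), by omega⟩) ∧
      l s(v, w ⟨2 * (i + 1), by omega⟩) < l s(v, w ⟨2 * (i + 2), by omega⟩)) ∨
    (l s(v, w ⟨2 * (i + 1), by omega⟩) < l s(v, w ⟨2 * i, by omega⟩) ∧
      l s(v, w ⟨2 * (i + 2), by omega⟩) < l s(v, w ⟨2 * (i + 1), by omega⟩)) := by
  refine between hg (u1 := u ⟨2 * i + 1, by omega⟩) (u3 := u ⟨2 * i + 3, by omega⟩)
    (c := u ⟨2 * i + 2, by omega⟩) (x := w ⟨2 * i + 1, by omega⟩) (y := w ⟨2 * i + 3, by omega⟩)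
    ?_ ?_ ?_ ?_ ?_ ?_ ?_ ?_ ?_ ?_ ?_ ?_ ?_ ?_ ?_ ?_ ?_ ?_ ?_ ?_ ?_ ?_ ?_ ?_ ?_ ?_ ?_ <;>
  first
  | (rw [graph_adj]; simp only [adj, true_or, or_true]; done)
  | (rw [graph_adj]; simp only [adj]; omega)
  | (simp only [ne_eq, reduceCtorEq, not_false_eq_true]; done)
  | (simp only [ne_eq, u.injEq, w.injEq, Fin.mk.injEq]; omega)

theorem mono_of_betw (f : ℕ → ℝ) (k : ℕ)
    (h : ∀ i, i + 2 ≤ k → (f i < f (i + 1) ∧ f (i + 1) < f (i + 2)) ∨
      (f (i + 1) < f i ∧ f (i + 2) < f (i + 1))) :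
    (∀ i, i + 1 ≤ k → f i < f (i + 1)) ∨ (∀ i, i + 1 ≤ k → f (i + 1) < f i) ∨ k ≤ 1 := by
  by_cases hk : k ≤ 1
  · exact Or.inr (Or.inr hk)
  rcases h 0 (by omega) with h0 | h0
  · left
    intro i
    induction i with
    | zero => intro _; exact h0.1
    | succ i ih =>
      intro hi
      have h1 := ih (by omega)
      rcases h i (by omega) with h2 | h2
      · exact h2.2
      · exact absurd h2.1 (not_lt.2 h1.le)
  · right; left
    intro i
    induction i with
    | zero => intro _; exact h0.1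
    | succ i ih =>
      intro hi
      have h1 := ih (by omega)
      rcases h i (by omega) with h2 | h2
      · exact absurd h2.1 (not_lt.2 h1.le)
      · exact h2.2

theorem not_cgood (c : ℕ) : ¬ IsCGood (graph (2 * (c + 2) + 1)) c := by
  obtain ⟨k, hk⟩ : ∃ k, k = c + 2 := ⟨_, rfl⟩
  rw [← hk]
  rintro ⟨l, hg, hcard⟩
  -- extend the sequence of labels
  let f : ℕ → ℝ := fun i => if h : 2 * i < 2 * k + 1 then l s(v, w ⟨2 * i, h⟩) else 0
  have hf : ∀ i (h : 2 * i < 2 * k + 1), f i = l s(v, w ⟨2 * i, h⟩) := fun i h => dif_pos h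
  have hb : ∀ i, i + 2 ≤ k → (f i < f (i + 1) ∧ f (i + 1) < f (i + 2)) ∨
      (f (i + 1) < f i ∧ f (i + 2) < f (i + 1)) := by
    intro i hi
    rw [hf i (by omega), hf (i + 1) (by omega), hf (i + 2) (by omega)]
    exact betw k i hi hg
  have hinj : Set.InjOn f {i | i ≤ k} := by
    rcases mono_of_betw f k hb with h | h | h
    · have hlt : ∀ d i, i + d + 1 ≤ k → f i < f (i + d + 1) := by
        intro d
        induction d with
        | zero => intro i hi; exact h i hi
        | succ d ih => intro i hi; exact (ih i (by omega)).trans (h (i + d + 1) (by omega))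
      intro i hi j hj hij
      rw [Set.mem_ofPred_eq] at hi hj
      rcases lt_trichotomy i j with hlt' | heq | hlt'
      · have := hlt (j - i - 1) i (by omega)
        rw [show i + (j - i - 1) + 1 = j by omega] at this
        exact absurd hij this.ne
      · exact heq
      · have := hlt (i - j - 1) j (by omega)
        rw [show j + (i - j - 1) + 1 = i by omega] at this
        exact absurd hij this.ne'
    · have hlt : ∀ d i, i + d + 1 ≤ k → f (i + d + 1) < f i := by
        intro d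
        induction d with
        | zero => intro i hi; exact h i hi
        | succ d ih => intro i hi; exact (h (i + d + 1) (by omega)).trans (ih i (by omega))
      intro i hi j hj hij
      rw [Set.mem_ofPred_eq] at hi hj
      rcases lt_trichotomy i j with hlt' | heq | hlt'
      · have := hlt (j - i - 1) i (by omega)
        rw [show i + (j - i - 1) + 1 = j by omega] at this
        exact absurd hij this.ne'
      · exact heq
      · have := hlt (i - j - 1) j (by omega)
        rw [show j + (i - j - 1) + 1 = i by omega] at this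
        exact absurd hij this.ne
    · omega
  have hsub : f '' {i | i ≤ k} ⊆ l '' (graph (2 * k + 1)).edgeSet := by
    rintro _ ⟨i, hi, rfl⟩
    rw [Set.mem_ofPred_eq] at hi
    rw [hf i (by omega)]
    refine ⟨_, ?_, rfl⟩
    rw [mem_edgeSet, graph_adj]
    simp only [adj]
  have h1 : (f '' {i | i ≤ k}).encard = (k + 1 : ℕ) := by
    rw [hinj.encard_image]
    have : {i | i ≤ k} = ((Finset.range (k + 1) : Finset ℕ) : Set ℕ) := by
      ext i; simp only [Set.mem_ofPred_eq, Finset.coe_range, Set.mem_Iio]; omega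
    rw [this, Set.encard_coe_eq_coe_finsetCard, Finset.card_range]
  have h2 := (Set.encard_le_encard hsub).trans hcard
  rw [h1, Nat.cast_le] at h2
  omega

end Vx

end Pool.Agent.Helper24.GoodLabeling
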